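import Pool.Agent.W645.WV.Stm

set_option autoImplicit false
set_option linter.unusedVariables false

/-!
Smooth compactly supported functions of a multiple of the squared norm are multipliers.
-/

open MeasureTheory Set Complex
open scoped ENNReal FourierTransform

namespace Pool.Agent.W358.WV.Mul

open Pool.Agent.W645.WV
open Pool.Agent.W203.BE (T gn ga al g1 S_BAS S_BASN S_MEAS S_CORE)

/-- the phase -/
noncomputable def e (v : ℝ) : ℂ := cexp (-(2 * (Real.pi : ℂ) * I * ((v : ℝ) : ℂ)))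

theorem norm_e (v : ℝ) : ‖e v‖ = 1 := by
  unfold e; rw [Complex.norm_exp]; simp

theorem e_add (u v : ℝ) : e (u + v) = e u * e v := by
  unfold e; rw [← Complex.exp_add]; congr 1; push_cast; ring

theorem e_cont : Continuous e := by unfold e; fun_prop

theorem e_sum {n : ℕ} (v : Fin n → ℝ) : e (∑ j, v j) = ∏ j, e (v j) := by
  unfold e
  rw [← Complex.exp_sum]
  congr 1
  push_cast
  rw [Finset.mul_sum, Finset.sum_neg_distrib]

theorem MK_eq (Θ : ℝ → ℂ) (s : ℝ) : MK Θ s = 𝓕⁻ (fun y : ℝ => cexp (y : ℂ) * Θ y) s := by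
  rw [Real.fourierInv_eq']
  unfold MK
  refine integral_congr_ae (Filter.Eventually.of_forall fun y => ?_)
  simp only [smul_eq_mul]
  rw [mul_comm]
  congr 2
  simp only [RCLike.inner_apply, conj_trivial]
  push_cast; ring

theorem inv (Θ : ℝ → ℂ) (hc : Continuous Θ) (hR : ∀ y, Θ y ≠ 0 → -1 ≤ y ∧ y ≤ 16)
    (hM : Integrable (MK Θ)) (y0 : ℝ) :
    ∫ s : ℝ, MK Θ s * cexp (-((y0 : ℂ) * (1 + 2 * (Real.pi : ℂ) * I * (s : ℂ)))) = Θ y0 := by
  set h : ℝ → ℂ := fun y => cexp (y : ℂ) * Θ y with hh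
  have hcont : Continuous h := by rw [hh]; fun_prop
  have hsupp : HasCompactSupport h := by
    refine HasCompactSupport.intro (isCompact_Icc (a := (-1 : ℝ)) (b := 16)) fun y hy => ?_
    by_contra h0
    have h1 : Θ y ≠ 0 := fun h2 => h0 (by rw [hh]; simp [h2])
    exact hy ⟨(hR y h1).1, (hR y h1).2⟩
  have hint : Integrable h := hcont.integrable_of_hasCompactSupport hsupp
  have h2 : 𝓕⁻ h = MK Θ := by ext s; exact (MK_eq Θ s).symm
  have hF : Integrable (𝓕 h) := by
    have : 𝓕 h = fun w => MK Θ (-w) := by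
      ext w; rw [MK_eq, Real.fourierInv_eq_fourier_neg, neg_neg]
    rw [this]; exact hM.comp_neg
  have h1 : 𝓕 (𝓕⁻ h) y0 = h y0 := hint.fourier_fourierInv_eq hF hcont.continuousAt
  rw [h2, Real.fourier_eq'] at h1
  have h3 : ∫ s : ℝ, MK Θ s * cexp (-((y0 : ℂ) * (1 + 2 * (Real.pi : ℂ) * I * (s : ℂ)))) =
      cexp (-(y0 : ℂ)) * ∫ v : ℝ, cexp ((((-2 * Real.pi * inner ℝ v y0 : ℝ) : ℂ)) * I) • MK Θ v := by
    rw [← integral_const_mul]
    refine integral_congr_ae (Filter.Eventually.of_forall fun s => ?_)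
    simp only [smul_eq_mul]
    rw [← mul_assoc, ← Complex.exp_add, mul_comm]
    congr 2
    simp only [RCLike.inner_apply, conj_trivial]
    push_cast; ring
  rw [h3, h1, hh, ← mul_assoc, ← Complex.exp_add]
  simp

theorem ga_eq (κ s : ℝ) : ga κ 1 s = (κ : ℂ) * (1 + 2 * (Real.pi : ℂ) * I * (s : ℂ)) := by
  unfold ga
  apply Complex.ext <;> simp

theorem ga_norm (κ s : ℝ) (hκ : 0 < κ) : ‖ga κ 1 s‖ / (ga κ 1 s).re ≤ 2 * Real.pi * (1 + |s|) := by
  have h1 : (ga κ 1 s).re = κ := by simp [ga]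
  rw [h1, div_le_iff₀ hκ]
  have h2 := Complex.norm_le_abs_re_add_abs_im (ga κ 1 s)
  have h3 : (ga κ 1 s).im = κ * (2 * Real.pi * s) := by simp [ga]
  rw [h1, h3, abs_mul, abs_mul, abs_of_pos hκ, abs_of_pos (by positivity : 0 < 2 * Real.pi)] at h2
  have h4 : 1 ≤ 2 * Real.pi := by linarith [Real.two_le_pi]
  nlinarith

theorem gn_meas (n : ℕ) (κ : ℝ) :
    Measurable (fun q : ℝ × (Fin n → ℝ) => gn (fun _ => ga κ 1 q.1) q.2) := by
  unfold gn g1
  simp only [ga_eq]
  refine Finset.measurable_prod _ fun j _ => ?_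
  have h1 : Measurable (fun q : ℝ × (Fin n → ℝ) => q.2 j) := by fun_prop
  fun_prop

theorem gn_lint (hBAS : S_BAS) (hBASN : S_BASN) (n : ℕ) (κ s : ℝ) (hκ : 0 < κ) :
    ∫⁻ x : Fin n → ℝ, ‖gn (fun _ => ga κ 1 s) x‖ₑ ≤
      ENNReal.ofReal ((2 * Real.pi * (1 + |s|)) ^ n) := by
  have hre : 0 < (ga κ 1 s).re := by simp [ga, hκ]
  obtain ⟨-, h2, -, h4, -⟩ := hBAS (ga κ 1 s) hre
  obtain ⟨-, hi, -⟩ := hBASN n (fun _ => ga κ 1 s) (fun _ => hre)
  rw [← ofReal_integral_norm_eq_lintegral_enorm hi]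
  refine ENNReal.ofReal_le_ofReal ?_
  have h5 : ∫ x, ‖g1 (ga κ 1 s) x‖ = Real.sqrt (‖ga κ 1 s‖ / (ga κ 1 s).re) := by
    rw [← ofReal_integral_norm_eq_lintegral_enorm h2] at h4
    rwa [ENNReal.ofReal_eq_ofReal_iff (integral_nonneg fun _ => norm_nonneg _)
      (Real.sqrt_nonneg _)] at h4
  have h6 : ∫ x : Fin n → ℝ, ‖gn (fun _ => ga κ 1 s) x‖ =
      Real.sqrt (‖ga κ 1 s‖ / (ga κ 1 s).re) ^ n := by
    unfold gn
    simp only [norm_prod]
    rw [integral_fintype_prod_volume_eq_pow (fun x : ℝ => ‖g1 (ga κ 1 s) x‖), h5,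
      Fintype.card_fin]
  rw [h6]
  refine pow_le_pow_left₀ (Real.sqrt_nonneg _) ?_ n
  refine (Real.sqrt_le_sqrt (ga_norm κ s hκ)).trans ?_
  have h7 : 1 ≤ 2 * Real.pi * (1 + |s|) := by
    have := Real.two_le_pi
    have := abs_nonneg s
    nlinarith
  rw [Real.sqrt_le_iff]
  exact ⟨by linarith, by nlinarith⟩

theorem gn_ft (hBAS : S_BAS) (n : ℕ) (κ s : ℝ) (hκ : 0 < κ) (ξ : Fin n → ℝ) :
    ∫ x : Fin n → ℝ, e (∑ j, x j * ξ j) * gn (fun _ => ga κ 1 s) x =
      cexp (-(((κ * Q ξ : ℝ) : ℂ) * (1 + 2 * (Real.pi : ℂ) * I * (s : ℂ)))) := by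
  have hre : 0 < (ga κ 1 s).re := by simp [ga, hκ]
  obtain ⟨-, -, -, -, -, h6, -⟩ := hBAS (ga κ 1 s) hre
  have h1 : ∀ x : Fin n → ℝ, e (∑ j, x j * ξ j) * gn (fun _ => ga κ 1 s) x =
      ∏ j, (g1 (ga κ 1 s) (x j) * e (x j * ξ j)) := by
    intro x
    rw [e_sum, gn, ← Finset.prod_mul_distrib]
    exact Finset.prod_congr rfl fun j _ => mul_comm _ _
  simp only [h1]
  rw [integral_fintype_prod_volume_eq_prod (fun (j : Fin n) (x : ℝ) =>
    g1 (ga κ 1 s) x * e (x * ξ j))]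
  have h2 : ∀ j : Fin n, ∫ x : ℝ, g1 (ga κ 1 s) x * e (x * ξ j) =
      cexp (-(ga κ 1 s * (ξ j : ℂ) ^ 2)) := fun j => h6 (ξ j)
  rw [Finset.prod_congr rfl fun j _ => h2 j, ← Complex.exp_sum]
  congr 1
  rw [ga_eq, Finset.sum_neg_distrib, ← Finset.mul_sum, Q]
  push_cast
  ring

/-- the integral of the weight -/
noncomputable def Jc : ℝ := ∫ s : ℝ, (1 + ‖s‖) ^ (-(2 : ℝ))

theorem Jc_int : Integrable (fun s : ℝ => (1 + ‖s‖) ^ (-(2 : ℝ))) := by
  refine integrable_one_add_norm ?_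
  rw [Module.finrank_self]; norm_num

theorem wgt (n : ℕ) (s : ℝ) : (1 + |s|) ^ (-((n + 2 : ℕ) : ℝ)) * (1 + |s|) ^ n =
    (1 + ‖s‖) ^ (-(2 : ℝ)) := by
  have h0 : 0 < 1 + |s| := by have := abs_nonneg s; linarith
  rw [← Real.rpow_natCast (1 + |s|) n, ← Real.rpow_add h0, Real.norm_eq_abs]
  congr 1
  push_cast; ring

theorem mul (hBAS : S_BAS) (hBASN : S_BASN) (hDEC : S_DEC) (hYNG : S_YNG) : S_MUL := by
  intro n
  obtain ⟨C0, hC0, hD⟩ := hDEC (n + 2)
  have hJ : 0 ≤ Jc := integral_nonneg fun s => by positivity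
  refine ⟨C0 * (2 * Real.pi) ^ n * (Jc + 1), by positivity, ?_⟩
  intro N hN Θ hΘ κ hκ f hf hfi
  set C : ℝ := C0 * (2 * Real.pi) ^ n * (Jc + 1) with hC
  obtain ⟨hMc, hMb⟩ := hD N hN Θ hΘ
  set M : ℝ → ℂ := MK Θ with hM
  let F : ℝ → (Fin n → ℝ) → ℂ := fun s x => M s * gn (fun _ => ga κ 1 s) x
  have hFm : Measurable (Function.uncurry F) := by
    show Measurable (fun q : ℝ × (Fin n → ℝ) => M q.1 * gn (fun _ => ga κ 1 q.1) q.2)
    exact (hMc.measurable.comp measurable_fst).mul (gn_meas n κ)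
  have hFb : ∫⁻ s, ∫⁻ x, ‖F s x‖ₑ ≤ ENNReal.ofReal (C * N) := by
    have h1 : ∀ s, ∫⁻ x, ‖F s x‖ₑ ≤
        ENNReal.ofReal (C0 * N * (2 * Real.pi) ^ n * (1 + ‖s‖) ^ (-(2 : ℝ))) := by
      intro s
      have h2 : ∫⁻ x, ‖F s x‖ₑ = ‖M s‖ₑ * ∫⁻ x : Fin n → ℝ, ‖gn (fun _ => ga κ 1 s) x‖ₑ := by
        simp only [F, enorm_mul]
        rw [lintegral_const_mul' _ _ (by simp)]
      rw [h2]
      have h3 : ‖M s‖ₑ ≤ ENNReal.ofReal (C0 * N * (1 + |s|) ^ (-((n + 2 : ℕ) : ℝ))) := by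
        rw [← ofReal_norm]
        exact ENNReal.ofReal_le_ofReal (hMb s)
      refine (mul_le_mul' h3 (gn_lint hBAS hBASN n κ s hκ)).trans ?_
      rw [← ENNReal.ofReal_mul (by positivity)]
      refine ENNReal.ofReal_le_ofReal (le_of_eq ?_)
      rw [mul_pow, ← wgt n s]
      ring
    refine (lintegral_mono h1).trans ?_
    rw [← ofReal_integral_eq_lintegral_ofReal (Jc_int.const_mul _)
      (Filter.Eventually.of_forall fun s => by positivity), integral_const_mul]
    refine ENNReal.ofReal_le_ofReal ?_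
    rw [hC]
    show C0 * N * (2 * Real.pi) ^ n * Jc ≤ _
    have : 0 ≤ C0 * N * (2 * Real.pi) ^ n := by positivity
    nlinarith
  have hFi : Integrable (Function.uncurry F) (volume.prod volume) := by
    refine ⟨hFm.aestronglyMeasurable, ?_⟩
    rw [hasFiniteIntegral_iff_enorm, lintegral_prod _ hFm.enorm.aemeasurable]
    exact hFb.trans_lt ENNReal.ofReal_lt_top
  let K : (Fin n → ℝ) → ℂ := fun x => ∫ s, F s x
  have hKm : Measurable K :=
    (hFm.stronglyMeasurable.integral_prod_left' (μ := (volume : Measure ℝ))).measurable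
  have hKb : ∫⁻ x, ‖K x‖ₑ ≤ ENNReal.ofReal (C * N) := by
    calc ∫⁻ x, ‖K x‖ₑ ≤ ∫⁻ x, ∫⁻ s, ‖F s x‖ₑ :=
          lintegral_mono fun x => enorm_integral_le_lintegral_enorm _
      _ = ∫⁻ s, ∫⁻ x, ‖F s x‖ₑ := by
          rw [lintegral_lintegral_swap]
          exact (hFm.comp measurable_swap).enorm.aemeasurable
      _ ≤ _ := hFb
  have hKi : Integrable K := ⟨hKm.aestronglyMeasurable, by
    rw [hasFiniteIntegral_iff_enorm]; exact hKb.trans_lt ENNReal.ofReal_lt_top⟩
  -- the Fourier transform of the kernel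
  have hMi : Integrable M := by
    refine Integrable.mono' (g := fun s => C0 * N * (1 + ‖s‖) ^ (-(2 : ℝ))) (Jc_int.const_mul _)
      hMc.aestronglyMeasurable (Filter.Eventually.of_forall fun s => (hMb s).trans ?_)
    refine mul_le_mul_of_nonneg_left ?_ (by positivity)
    rw [Real.norm_eq_abs]
    refine Real.rpow_le_rpow_of_exponent_le (by have := abs_nonneg s; linarith) ?_
    push_cast
    have : (0 : ℝ) ≤ n := Nat.cast_nonneg n
    linarith
  have hKft : ∀ ξ, ∫ x, e (∑ j, x j * ξ j) * K x = Θ (κ * Q ξ) := by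
    intro ξ
    have hem : Measurable (fun x : Fin n → ℝ => e (∑ j, x j * ξ j)) :=
      (e_cont.comp (by fun_prop)).measurable
    calc ∫ x, e (∑ j, x j * ξ j) * K x = ∫ x, ∫ s, e (∑ j, x j * ξ j) * F s x := by
          refine integral_congr_ae (Filter.Eventually.of_forall fun x => ?_)
          exact (integral_const_mul _ _).symm
      _ = ∫ s, ∫ x, e (∑ j, x j * ξ j) * F s x := by
          rw [integral_integral_swap]
          refine ⟨((hem.comp measurable_fst).mul
            (hFm.comp measurable_swap)).aestronglyMeasurable, ?_⟩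
          have h1 := hFi.swap.2
          rw [hasFiniteIntegral_iff_enorm] at h1 ⊢
          refine lt_of_le_of_lt (le_of_eq ?_) h1
          refine lintegral_congr fun q => ?_
          show ‖e (∑ j, q.1 j * ξ j) * F q.2 q.1‖ₑ = ‖F q.2 q.1‖ₑ
          rw [enorm_mul]
          have : ‖e (∑ j, q.1 j * ξ j)‖ₑ = 1 := by rw [← ofReal_norm, norm_e]; simp
          rw [this, one_mul]
      _ = ∫ s : ℝ, M s * cexp (-(((κ * Q ξ : ℝ) : ℂ) * (1 + 2 * (Real.pi : ℂ) * I * (s : ℂ)))) := by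
          refine integral_congr_ae (Filter.Eventually.of_forall fun s => ?_)
          show ∫ x, e (∑ j, x j * ξ j) * (M s * gn (fun _ => ga κ 1 s) x) =
            M s * cexp (-(((κ * Q ξ : ℝ) : ℂ) * (1 + 2 * (Real.pi : ℂ) * I * (s : ℂ))))
          rw [← gn_ft hBAS n κ s hκ ξ, ← integral_const_mul]
          refine integral_congr_ae (Filter.Eventually.of_forall fun x => ?_)
          show _ = _
          ring
      _ = Θ (κ * Q ξ) := inv Θ hΘ.1.continuous hΘ.2.1 hMi _
  refine ⟨fun x => ∫ y, K (x - y) * f y, ?_, ?_, ?_, ?_⟩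
  · have h1 : Measurable (fun q : (Fin n → ℝ) × (Fin n → ℝ) => K (q.1 - q.2) * f q.2) :=
      (hKm.comp (measurable_fst.sub measurable_snd)).mul (hf.comp measurable_snd)
    exact (h1.stronglyMeasurable.integral_prod_right'
      (ν := (volume : Measure (Fin n → ℝ)))).measurable
  · have h1 : Measurable (fun q : (Fin n → ℝ) × (Fin n → ℝ) => K (q.1 - q.2) * f q.2) :=
      (hKm.comp (measurable_fst.sub measurable_snd)).mul (hf.comp measurable_snd)
    refine ⟨(h1.stronglyMeasurable.integral_prod_right'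
      (ν := (volume : Measure (Fin n → ℝ)))).aestronglyMeasurable, ?_⟩
    have h2 := hYNG n K f hKm hf 1 le_rfl
    simp only [ENNReal.rpow_one] at h2
    rw [hasFiniteIntegral_iff_enorm]
    refine h2.trans_lt (ENNReal.mul_lt_top (hKb.trans_lt ENNReal.ofReal_lt_top) ?_)
    have := hfi.2
    rwa [hasFiniteIntegral_iff_enorm] at this
  · intro ξ
    have hem : Measurable (fun x : Fin n → ℝ => e (∑ j, x j * ξ j)) :=
      (e_cont.comp (by fun_prop)).measurable
    have hci : Integrable (fun p : (Fin n → ℝ) × (Fin n → ℝ) => K (p.1 - p.2) * f p.2)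
        (volume.prod volume) := by
      have := hfi.convolution_integrand (ContinuousLinearMap.mul ℝ ℂ) hKi
      refine this.congr (Filter.Eventually.of_forall fun p => ?_)
      show f p.2 * K (p.1 - p.2) = K (p.1 - p.2) * f p.2
      ring
    show ∫ x, e (∑ j, x j * ξ j) * ∫ y, K (x - y) * f y =
      Θ (κ * Q ξ) * ∫ y, e (∑ j, y j * ξ j) * f y
    calc ∫ x, e (∑ j, x j * ξ j) * ∫ y, K (x - y) * f y =
          ∫ x, ∫ y, e (∑ j, x j * ξ j) * (K (x - y) * f y) := by
          refine integral_congr_ae (Filter.Eventually.of_forall fun x => ?_)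
          exact (integral_const_mul _ _).symm
      _ = ∫ y, ∫ x, e (∑ j, x j * ξ j) * (K (x - y) * f y) := by
          rw [integral_integral_swap]
          refine ⟨((hem.comp measurable_fst).aestronglyMeasurable).mul
            hci.aestronglyMeasurable, ?_⟩
          have h1 := hci.2
          rw [hasFiniteIntegral_iff_enorm] at h1 ⊢
          refine lt_of_le_of_lt (le_of_eq ?_) h1
          refine lintegral_congr fun q => ?_
          show ‖e (∑ j, q.1 j * ξ j) * (K (q.1 - q.2) * f q.2)‖ₑ = ‖K (q.1 - q.2) * f q.2‖ₑ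
          rw [enorm_mul]
          have : ‖e (∑ j, q.1 j * ξ j)‖ₑ = 1 := by rw [← ofReal_norm, norm_e]; simp
          rw [this, one_mul]
      _ = ∫ y, Θ (κ * Q ξ) * (e (∑ j, y j * ξ j) * f y) := by
          refine integral_congr_ae (Filter.Eventually.of_forall fun y => ?_)
          show ∫ x, e (∑ j, x j * ξ j) * (K (x - y) * f y) = _
          have h1 : ∀ x : Fin n → ℝ, e (∑ j, x j * ξ j) * (K (x - y) * f y) =
              (e (∑ j, y j * ξ j) * f y) * (e (∑ j, (x - y) j * ξ j) * K (x - y)) := by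
            intro x
            have h2 : (∑ j, x j * ξ j) = (∑ j, y j * ξ j) + ∑ j, (x - y) j * ξ j := by
              rw [← Finset.sum_add_distrib]
              refine Finset.sum_congr rfl fun j _ => ?_
              rw [Pi.sub_apply]; ring
            rw [h2, e_add]; ring
          simp only [h1]
          rw [integral_const_mul,
            integral_sub_right_eq_self (fun x : Fin n → ℝ => e (∑ j, x j * ξ j) * K x) y, hKft]
          ring
      _ = Θ (κ * Q ξ) * ∫ y, e (∑ j, y j * ξ j) * f y := integral_const_mul _ _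
  · intro p hp
    refine (hYNG n K f hKm hf p hp).trans ?_
    refine mul_le_mul' ?_ le_rfl
    rw [← ENNReal.ofReal_rpow_of_nonneg (by positivity) (by linarith)]
    exact ENNReal.rpow_le_rpow hKb (by linarith)

end Pool.Agent.W358.WV.Mul
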